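import Pool.Agent.Run7.h102.DG.Main

/-!
# MP_ec2393_nt: free generation for the odd weights of an antichain of the digitwise order

Let `p` be a prime and let `B` be a set of positive integers such that `p` divides `binom(2b, 2a)` for all `a < b`
in `B`. By Lucas this means that `B` is an antichain: no `2a` has all its base `p` digits at most those of `2b`. For
instance, all `2b` with a fixed digit sum in base `p`: the numbers `b` with `s` binary digits one (`p = 2`; for
`s` near `(log₂ X)/2` about `X / √(log X)` numbers up to `X`), or, with `p = 3` and digit sum two, the weights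
`2b + 1 = 3, 5, 7, 11, 13, 19, 29, 31, 37, 55, …`, one more than the sums of two powers of `3`.

**Theorem.** Any homogeneous elements `ψ_b` of the double shuffle Lie algebra (or only of `Lie[x₀, x₁]`) of the weights
`2b + 1`, `b ∈ B`, which are not zero in depth one, freely generate a free Lie algebra under the Ihara bracket.

So a part of the expected generators, one in each of infinitely many odd weights, is independent for every choice of the
elements. Without a condition on the weights this is false for elements of `Lie[x₀, x₁]`: the depth one elements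
`(ad x₀)^(2b) x₁` satisfy the relations of the period polynomials, the first one between the weights `3, 5, 7, 9`.

Proof. Let `L_b` be the linearized operator `g ↦ f g + D_f g`, `f = (ad x₀)^(2b) x₁`. Its matrix on the
coefficients at the words `x₀^(k₁) x₁ ⋯ x₀^(k_d) x₁` has the entries `± binom(2b, k_i)`. At the totally even words with
`k_i = 2 a_i`, `a_i ∈ B`, all these entries vanish modulo `p` except for `a_i = b`, and the two terms with `a_i = b`
which belong to the neighbours cancel, except at one end. So modulo `p` the coefficient of `L_(b_1) ⋯ L_(b_d) 1` at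
`x₀^(2 a_d) x₁ ⋯ x₀^(2 a_1) x₁`, read in the right order, is `1` for `a = b` and `0` for all other `a` with letters in
`B`: the matrix is the identity.

The linearization and the transfer to elements with nonzero terms of higher depth are from the files of the project
(`Pool.Agent.N568`, `Pool.Agent.H358R3`, `Pool.Agent.H777R4`).
-/

set_option autoImplicit false

namespace Pool.Agent.Results.MP_ec2393_nt.DigitwiseAntichains

open Pool.Agent.H777R4.DM

attribute [local instance 100] LieRing.ofAssociativeRing

/-- Let `p` be a prime and let `b₁, …, bₙ ≥ 1` be distinct such that for all `b_i < b_j` the prime `p` divides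
`binom(2 b_j, 2 b_i)`; this holds in particular if the digit sum of `2 b_j` in base `p` is at most that of `2 b_i`.
Let `ψᵢ ∈ Lie[x₀, x₁]` be homogeneous of weight `2 bᵢ + 1`, with a nonzero coefficient at `x₀^(2 bᵢ) x₁`. Then there is
an injective linear map `φ` on `ℚ⟨X₁, …, Xₙ⟩` with `φ Xᵢ = ψᵢ` that carries the bracket `[P, Q] = PQ - QP` of the free
Lie algebra on `X₁, …, Xₙ` to the Ihara bracket. -/
theorem result (p : ℕ) (hp : p.Prime) (n : ℕ) (b : Fin n → ℕ) (hb : Function.Injective b)
    (h1 : ∀ i, 1 ≤ b i)
    (hB : ∀ i j, b i < b j → p ∣ (2 * b j).choose (2 * b i) ∨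
      (p.digits (2 * b j)).sum ≤ (p.digits (2 * b i)).sum)
    (ψ : Fin n → A) (hL : ∀ i, ψ i ∈ LieX)
    (hw : ∀ i u, co (ψ i) u ≠ 0 → u.length = 2 * b i + 1)
    (hne : ∀ i, co (ψ i) (List.replicate (2 * b i) 0 ++ [1]) ≠ 0) :
    ∃ φ : Al (Fin n) →ₗ[ℚ] A, Function.Injective φ ∧ (∀ i, φ (wd [i]) = ψ i) ∧
      ∀ P ∈ LieN n, ∀ Q ∈ LieN n, φ (P * Q - Q * P) = ihara (φ P) (φ Q) :=
  ⟨PhiN ψ, Run7.h102.DG.main p hp n b h1 (fun i j hij => (hB i j hij).elim id fun h =>
      Run7.h102.DG.dvd_choose p hp _ _ (by omega) h) hb ψ hL hw hne,
    (Pool.Agent.H358R3.DM.taskFinalN n ψ).1, (Pool.Agent.H358R3.DM.taskFinalN n ψ).2⟩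

end Pool.Agent.Results.MP_ec2393_nt.DigitwiseAntichains
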